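import Mathlib

/-!
# A finite dimensional Grothendieck inequality for quadratic forms

If a real quadratic form `Q x = ∑ a i j x i x j` satisfies `|Q x| ≤ 1` on the cube `[-1,1]^n`
then there are `μ i ≥ 0` with `∑ μ i ≤ 16` and `|Q x| ≤ ∑ μ i (x i)^2` for all `x`.
-/

namespace Pool.Agent.SymASQ

open Finset

/-- the sign attached to a boolean -/
def sg (b : Bool) : ℝ := if b then 1 else -1

/-- Rademacher sum -/
def rad {d : ℕ} (v : Fin d → ℝ) (e : Fin d → Bool) : ℝ := ∑ k, sg (e k) * v k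

lemma sum_bool_cons {d : ℕ} (F : (Fin (d + 1) → Bool) → ℝ) :
    ∑ e, F e = ∑ e : Fin d → Bool, (F (Fin.cons true e) + F (Fin.cons false e)) := by
  rw [← (Fin.consEquiv (fun _ => Bool)).sum_comp, Fintype.sum_prod_type_right]
  refine Finset.sum_congr rfl fun e _ => ?_
  simp [Fin.consEquiv]

lemma rad_cons {d : ℕ} (v : Fin (d + 1) → ℝ) (b : Bool) (e : Fin d → Bool) :
    rad v (Fin.cons b e) = sg b * v 0 + rad (Fin.tail v) e := by
  simp [rad, Fin.sum_univ_succ, Fin.tail]

lemma rad_pair {d : ℕ} (v w : Fin d → ℝ) :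
    ∑ e, rad v e * rad w e = 2 ^ d * ∑ k, v k * w k := by
  induction d with
  | zero => simp [rad]
  | succ d ih =>
    rw [sum_bool_cons]
    have h1 : ∀ e : Fin d → Bool,
        rad v (Fin.cons true e) * rad w (Fin.cons true e)
          + rad v (Fin.cons false e) * rad w (Fin.cons false e)
        = 2 * (v 0 * w 0) + 2 * (rad (Fin.tail v) e * rad (Fin.tail w) e) := by
      intro e
      simp only [rad_cons, sg]
      simp
      ring
    have h2 : ∑ e : Fin d → Bool, 2 * (rad (Fin.tail v) e * rad (Fin.tail w) e)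
        = 2 * (2 ^ d * ∑ k, Fin.tail v k * Fin.tail w k) := by
      rw [← Finset.mul_sum, ih]
    rw [Finset.sum_congr rfl fun e _ => h1 e, Finset.sum_add_distrib, h2, Fin.sum_univ_succ]
    simp [Fin.tail, pow_succ]
    ring

lemma rad_four {d : ℕ} (v : Fin d → ℝ) :
    ∑ e, rad v e ^ 4 ≤ 2 ^ d * (3 * (∑ k, v k ^ 2) ^ 2) := by
  induction d with
  | zero => simp [rad]
  | succ d ih =>
    rw [sum_bool_cons]
    have h1 : ∀ e : Fin d → Bool,
        rad v (Fin.cons true e) ^ 4 + rad v (Fin.cons false e) ^ 4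
        = 2 * (v 0) ^ 4 + 12 * (v 0) ^ 2 * (rad (Fin.tail v) e * rad (Fin.tail v) e)
          + 2 * rad (Fin.tail v) e ^ 4 := by
      intro e
      simp only [rad_cons, sg]
      simp
      ring
    have hc : ∑ _e : Fin d → Bool, 2 * (v 0) ^ 4 = 2 ^ d * (2 * (v 0) ^ 4) := by
      simp
    have hm : ∑ e : Fin d → Bool, 12 * (v 0) ^ 2 * (rad (Fin.tail v) e * rad (Fin.tail v) e)
        = 12 * (v 0) ^ 2 * (2 ^ d * ∑ k, Fin.tail v k * Fin.tail v k) := by
      rw [← Finset.mul_sum, rad_pair]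
    rw [Finset.sum_congr rfl fun e _ => h1 e, Finset.sum_add_distrib, Finset.sum_add_distrib,
      hc, hm, ← Finset.mul_sum, Fin.sum_univ_succ]
    have h2 := ih (Fin.tail v)
    have h3 : ∑ k, Fin.tail v k * Fin.tail v k = ∑ k : Fin d, v k.succ ^ 2 := by
      refine Finset.sum_congr rfl fun k _ => ?_
      simp [Fin.tail, sq]
    have h4 : ∑ k, Fin.tail v k ^ 2 = ∑ k : Fin d, v k.succ ^ 2 := rfl
    rw [h3]
    rw [h4] at h2
    set s := ∑ k : Fin d, v k.succ ^ 2
    have hs : 0 ≤ s := Finset.sum_nonneg fun k _ => sq_nonneg _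
    have h5 : (0 : ℝ) < 2 ^ d := by positivity
    have h6 : 0 ≤ (2 : ℝ) ^ d * (v 0) ^ 4 := by positivity
    rw [pow_succ (2 : ℝ) d]
    nlinarith [h2, h6]

/-- truncation to `[-1,1]` -/
def clip (x : ℝ) : ℝ := max (-1) (min 1 x)

lemma abs_clip_le_one (x : ℝ) : |clip x| ≤ 1 := by
  unfold clip
  rw [abs_le]
  constructor
  · exact le_max_left _ _
  · exact max_le (by norm_num) (min_le_left _ _)

lemma abs_clip_le (x : ℝ) : |clip x| ≤ |x| := by
  unfold clip
  rcases le_total x (-1) with h | h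
  · rw [min_eq_right (by linarith), max_eq_left h]
    rw [abs_of_nonpos (by linarith : x ≤ 0)]
    simp; linarith
  · rcases le_total x 1 with h' | h'
    · rw [min_eq_right h', max_eq_right h]
    · rw [min_eq_left h', max_eq_right (by norm_num), abs_of_nonneg (by linarith : 0 ≤ x)]
      simp; linarith

lemma sub_clip_sq (x : ℝ) : (x - clip x) ^ 2 ≤ x ^ 4 / 16 := by
  have key : |x - clip x| ≤ x ^ 2 / 4 := by
    unfold clip
    rcases le_total x (-1) with h | h
    · rw [min_eq_right (by linarith), max_eq_left h]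
      rw [abs_of_nonpos (by linarith)]
      nlinarith [sq_nonneg (x + 2)]
    · rcases le_total x 1 with h' | h'
      · rw [min_eq_right h', max_eq_right h]
        simp; positivity
      · rw [min_eq_left h', max_eq_right (by norm_num), abs_of_nonneg (by linarith)]
        nlinarith [sq_nonneg (x - 2)]
  have h0 : 0 ≤ |x - clip x| := abs_nonneg _
  calc (x - clip x) ^ 2 = |x - clip x| ^ 2 := (sq_abs _).symm
    _ ≤ (x ^ 2 / 4) ^ 2 := by gcongr
    _ = x ^ 4 / 16 := by ring

section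

variable {n : ℕ} (a : Fin n → Fin n → ℝ)

/-- the bilinear form -/
def bf (x y : Fin n → ℝ) : ℝ := ∑ i, ∑ j, a i j * (x i * y j)

/-- the Hilbert space valued extension of the bilinear form -/
def hf {κ : Type} [Fintype κ] (V W : Fin n → κ → ℝ) : ℝ :=
  ∑ i, ∑ j, a i j * ∑ k, V i k * W j k

lemma hf_eq {κ : Type} [Fintype κ] (V W : Fin n → κ → ℝ) :
    hf a V W = ∑ k, bf a (fun i => V i k) (fun j => W j k) := by
  unfold hf bf
  simp only [Finset.mul_sum]
  rw [Finset.sum_comm' (t' := univ) (s' := fun _ => univ) (by simp)]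
  refine Eq.trans ?_ (Finset.sum_comm)
  rw [Finset.sum_comm]
  refine Finset.sum_congr rfl fun i _ => ?_
  exact Finset.sum_comm

/-- the set of values of the Hilbert space extension -/
def vals : Set ℝ := {s | ∃ (d : ℕ) (V W : Fin n → Fin d → ℝ),
  (∀ i, ∑ k, V i k ^ 2 ≤ 1) ∧ (∀ i, ∑ k, W i k ^ 2 ≤ 1) ∧ s = hf a V W}

lemma cs_bound {κ : Type} [Fintype κ] (v w : κ → ℝ) (hv : ∑ k, v k ^ 2 ≤ 1)
    (hw : ∑ k, w k ^ 2 ≤ 1) : |∑ k, v k * w k| ≤ 1 := by
  have h := Finset.sum_mul_sq_le_sq_mul_sq univ v w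
  have h1 : (∑ k, v k * w k) ^ 2 ≤ 1 := by
    refine h.trans ?_
    have hv0 : 0 ≤ ∑ k, v k ^ 2 := Finset.sum_nonneg fun k _ => sq_nonneg _
    have hw0 : 0 ≤ ∑ k, w k ^ 2 := Finset.sum_nonneg fun k _ => sq_nonneg _
    nlinarith
  exact (sq_le_one_iff_abs_le_one _).1 h1

lemma vals_bdd : BddAbove (vals a) := by
  refine ⟨∑ i, ∑ j, |a i j|, ?_⟩
  rintro s ⟨d, V, W, hV, hW, rfl⟩
  unfold hf
  refine Finset.sum_le_sum fun i _ => Finset.sum_le_sum fun j _ => ?_
  have h := cs_bound (V i) (W j) (hV i) (hW j)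
  calc a i j * ∑ k, V i k * W j k ≤ |a i j * ∑ k, V i k * W j k| := le_abs_self _
    _ = |a i j| * |∑ k, V i k * W j k| := abs_mul _ _
    _ ≤ |a i j| * 1 := by gcongr
    _ = |a i j| := mul_one _

lemma vals_zero : (0 : ℝ) ∈ vals a := by
  refine ⟨0, fun _ _ => 0, fun _ _ => 0, by simp, by simp, by simp [hf]⟩

/-- The supremum -/
noncomputable def Gam : ℝ := sSup (vals a)

lemma Gam_nonneg : 0 ≤ Gam a := le_csSup (vals_bdd a) (vals_zero a)

lemma hf_le_Gam {κ : Type} [Fintype κ] (V W : Fin n → κ → ℝ)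
    (hV : ∀ i, ∑ k, V i k ^ 2 ≤ 1) (hW : ∀ i, ∑ k, W i k ^ 2 ≤ 1) : hf a V W ≤ Gam a := by
  refine le_csSup (vals_bdd a) ?_
  let e := (Fintype.equivFin κ).symm
  refine ⟨Fintype.card κ, fun i k => V i (e k), fun i k => W i (e k), fun i => ?_, fun i => ?_, ?_⟩
  · rw [e.sum_comp (fun k => V i k ^ 2)]; exact hV i
  · rw [e.sum_comp (fun k => W i k ^ 2)]; exact hW i
  · unfold hf
    refine Finset.sum_congr rfl fun i _ => Finset.sum_congr rfl fun j _ => ?_
    rw [e.sum_comp (fun k => V i k * W j k)]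

lemma hf_smul {κ : Type} [Fintype κ] (V W : Fin n → κ → ℝ) (s t : ℝ) :
    hf a (fun i k => s * V i k) (fun i k => t * W i k) = s * t * hf a V W := by
  unfold hf
  simp only [Finset.mul_sum]
  refine Finset.sum_congr rfl fun i _ => Finset.sum_congr rfl fun j _ =>
    Finset.sum_congr rfl fun k _ => ?_
  ring

/-- homogeneous version of `hf_le_Gam` -/
lemma hf_le {κ : Type} [Fintype κ] (V W : Fin n → κ → ℝ) {s t : ℝ} (hs : 0 < s) (ht : 0 < t)
    (hV : ∀ i, ∑ k, V i k ^ 2 ≤ s ^ 2) (hW : ∀ i, ∑ k, W i k ^ 2 ≤ t ^ 2) :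
    hf a V W ≤ s * t * Gam a := by
  have h1 : hf a V W = s * t * hf a (fun i k => s⁻¹ * V i k) (fun i k => t⁻¹ * W i k) := by
    rw [hf_smul]
    field_simp
  rw [h1]
  refine mul_le_mul_of_nonneg_left (hf_le_Gam a _ _ (fun i => ?_) (fun i => ?_)) (by positivity)
  · have : ∑ k, (s⁻¹ * V i k) ^ 2 = (s ^ 2)⁻¹ * ∑ k, V i k ^ 2 := by
      rw [Finset.mul_sum]
      refine Finset.sum_congr rfl fun k _ => ?_
      rw [mul_pow, inv_pow]
    rw [this, inv_mul_le_iff₀ (by positivity), mul_one]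
    exact hV i
  · have : ∑ k, (t⁻¹ * W i k) ^ 2 = (t ^ 2)⁻¹ * ∑ k, W i k ^ 2 := by
      rw [Finset.mul_sum]
      refine Finset.sum_congr rfl fun k _ => ?_
      rw [mul_pow, inv_pow]
    rw [this, inv_mul_le_iff₀ (by positivity), mul_one]
    exact hW i

lemma bf_add_left (x x' y : Fin n → ℝ) :
    bf a (fun i => x i + x' i) y = bf a x y + bf a x' y := by
  unfold bf
  rw [← Finset.sum_add_distrib]
  refine Finset.sum_congr rfl fun i _ => ?_
  rw [← Finset.sum_add_distrib]
  refine Finset.sum_congr rfl fun j _ => ?_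
  ring

lemma bf_add_right (x y y' : Fin n → ℝ) :
    bf a x (fun i => y i + y' i) = bf a x y + bf a x y' := by
  unfold bf
  rw [← Finset.sum_add_distrib]
  refine Finset.sum_congr rfl fun i _ => ?_
  rw [← Finset.sum_add_distrib]
  refine Finset.sum_congr rfl fun j _ => ?_
  ring

/-- The self-improving step. -/
lemma Gam_le {β : ℝ} (hβ : ∀ x y : Fin n → ℝ, (∀ i, |x i| ≤ 1) → (∀ i, |y i| ≤ 1) →
    bf a x y ≤ β) : Gam a ≤ 8 * β := by
  have hβ0 : 0 ≤ β := by
    have := hβ (fun _ => 0) (fun _ => 0) (by simp) (by simp)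
    simpa [bf] using this
  have step : Gam a ≤ β + 7 / 8 * Gam a := by
    refine csSup_le ⟨0, vals_zero a⟩ ?_
    rintro s ⟨d, V, W, hV, hW, rfl⟩
    -- Rademacher embedding
    set X : Fin n → (Fin d → Bool) → ℝ := fun i e => rad (V i) e with hX
    set Y : Fin n → (Fin d → Bool) → ℝ := fun i e => rad (W i) e with hY
    set TX : Fin n → (Fin d → Bool) → ℝ := fun i e => clip (X i e) with hTX
    set TY : Fin n → (Fin d → Bool) → ℝ := fun i e => clip (Y i e) with hTY
    set RX : Fin n → (Fin d → Bool) → ℝ := fun i e => X i e - TX i e with hRX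
    set RY : Fin n → (Fin d → Bool) → ℝ := fun i e => Y i e - TY i e with hRY
    have e1 : (2 : ℝ) ^ d * hf a V W = hf a X Y := by
      unfold hf
      rw [Finset.mul_sum]
      refine Finset.sum_congr rfl fun i _ => ?_
      rw [Finset.mul_sum]
      refine Finset.sum_congr rfl fun j _ => ?_
      rw [hX, hY]
      simp only
      rw [rad_pair]
      ring
    have e2 : hf a X Y = hf a TX TY + hf a TX RY + hf a RX Y := by
      rw [hf_eq, hf_eq, hf_eq, hf_eq, ← Finset.sum_add_distrib, ← Finset.sum_add_distrib]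
      refine Finset.sum_congr rfl fun e _ => ?_
      rw [← bf_add_right]
      have hy : (fun i => TY i e + RY i e) = fun i => Y i e := by
        funext i; simp [hRY]
      rw [hy, ← bf_add_left]
      have hx : (fun i => TX i e + RX i e) = fun i => X i e := by
        funext i; simp [hRX]
      rw [hx]
    have h2d : (0 : ℝ) < 2 ^ d := by positivity
    set q : ℝ := Real.sqrt (2 ^ d) with hq
    have hq0 : 0 < q := Real.sqrt_pos.2 h2d
    have hq2 : q ^ 2 = 2 ^ d := Real.sq_sqrt h2d.le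
    have hX2 : ∀ i, ∑ e, X i e ^ 2 ≤ q ^ 2 := by
      intro i
      have := rad_pair (V i) (V i)
      have h : ∑ e, X i e ^ 2 = 2 ^ d * ∑ k, V i k ^ 2 := by
        rw [show (∑ e, X i e ^ 2) = ∑ e, rad (V i) e * rad (V i) e from
          Finset.sum_congr rfl fun e _ => by rw [hX]; simp only; ring, this]
        congr 1
        exact Finset.sum_congr rfl fun e _ => by ring
      rw [h, hq2]
      nlinarith [hV i]
    have hY2 : ∀ i, ∑ e, Y i e ^ 2 ≤ q ^ 2 := by
      intro i
      have := rad_pair (W i) (W i)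
      have h : ∑ e, Y i e ^ 2 = 2 ^ d * ∑ k, W i k ^ 2 := by
        rw [show (∑ e, Y i e ^ 2) = ∑ e, rad (W i) e * rad (W i) e from
          Finset.sum_congr rfl fun e _ => by rw [hY]; simp only; ring, this]
        congr 1
        exact Finset.sum_congr rfl fun e _ => by ring
      rw [h, hq2]
      nlinarith [hW i]
    have hTX2 : ∀ i, ∑ e, TX i e ^ 2 ≤ q ^ 2 := by
      intro i
      refine le_trans (Finset.sum_le_sum fun e _ => ?_) (hX2 i)
      exact sq_le_sq.2 (abs_clip_le _)
    have four : ∀ v : Fin d → ℝ, ∑ k, v k ^ 2 ≤ 1 →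
        ∑ e, (rad v e - clip (rad v e)) ^ 2 ≤ (7 / 16 * q) ^ 2 := by
      intro v hv
      have h1 : ∑ e, (rad v e - clip (rad v e)) ^ 2 ≤ ∑ e, rad v e ^ 4 / 16 :=
        Finset.sum_le_sum fun e _ => sub_clip_sq _
      have h2 := rad_four v
      rw [← Finset.sum_div] at h1
      have h3 : 0 ≤ ∑ k, v k ^ 2 := Finset.sum_nonneg fun k _ => sq_nonneg _
      have h4 : (∑ k, v k ^ 2) ^ 2 ≤ 1 := by nlinarith
      have h5 : (2 : ℝ) ^ d * (3 * (∑ k, v k ^ 2) ^ 2) ≤ 2 ^ d * 3 := by
        nlinarith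
      rw [mul_pow, hq2]
      have h6 : (∑ e, rad v e ^ 4) / 16 ≤ 2 ^ d * 3 / 16 := by
        gcongr
        exact h2.trans h5
      refine h1.trans (h6.trans ?_)
      nlinarith
    have t1 : hf a TX TY ≤ 2 ^ d * β := by
      rw [hf_eq]
      have : ∀ e ∈ (univ : Finset (Fin d → Bool)), bf a (fun i => TX i e) (fun j => TY j e) ≤ β :=
        fun e _ => hβ _ _ (fun i => abs_clip_le_one _) (fun i => abs_clip_le_one _)
      have h := Finset.sum_le_card_nsmul univ _ β this
      simpa using h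
    have t2 : hf a TX RY ≤ q * (7 / 16 * q) * Gam a :=
      hf_le a TX RY hq0 (by positivity) hTX2 (fun i => four (W i) (hW i))
    have t3 : hf a RX Y ≤ (7 / 16 * q) * q * Gam a :=
      hf_le a RX Y (by positivity) hq0 (fun i => four (V i) (hV i)) hY2
    have t4 : (2 : ℝ) ^ d * hf a V W ≤ 2 ^ d * (β + 7 / 8 * Gam a) := by
      rw [e1, e2]
      have : q * (7 / 16 * q) = 7 / 16 * 2 ^ d := by rw [← hq2]; ring
      have h' : (7 / 16 * q) * q = 7 / 16 * 2 ^ d := by rw [← hq2]; ring
      rw [this] at t2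
      rw [h'] at t3
      nlinarith
    exact le_of_mul_le_mul_left t4 h2d
  linarith

/-- the quadratic form -/
def qf (x : Fin n → ℝ) : ℝ := bf a x x

/-- Grothendieck type inequality for finite families. -/
lemma sum_abs_qf_le (hsym : ∀ i j, a i j = a j i)
    (hQ : ∀ x : Fin n → ℝ, (∀ i, |x i| ≤ 1) → |qf a x| ≤ 1)
    {m : ℕ} (x : Fin m → Fin n → ℝ) {t : ℝ} (ht : 0 < t) (hx : ∀ i, ∑ s, x s i ^ 2 ≤ t) :
    ∑ s, |qf a (x s)| ≤ 16 * t := by
  -- polarisation
  have hpol : ∀ x y : Fin n → ℝ, (∀ i, |x i| ≤ 1) → (∀ i, |y i| ≤ 1) → bf a x y ≤ 2 := by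
    intro x y hx hy
    have hs : bf a x y = bf a y x := by
      unfold bf
      rw [Finset.sum_comm]
      refine Finset.sum_congr rfl fun i _ => Finset.sum_congr rfl fun j _ => ?_
      rw [hsym j i]; ring
    have e1 : qf a (fun i => (x i + y i) / 2) - qf a (fun i => (x i - y i) / 2) = bf a x y := by
      have : bf a x y = (bf a x y + bf a y x) / 2 := by rw [← hs]; ring
      rw [this]
      unfold qf bf
      rw [← Finset.sum_sub_distrib, ← Finset.sum_add_distrib, Finset.sum_div]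
      refine Finset.sum_congr rfl fun i _ => ?_
      rw [← Finset.sum_sub_distrib, ← Finset.sum_add_distrib, Finset.sum_div]
      refine Finset.sum_congr rfl fun j _ => ?_
      ring
    have h1 := hQ (fun i => (x i + y i) / 2) (fun i => by
      rw [abs_le]; have := abs_le.1 (hx i); have := abs_le.1 (hy i)
      constructor <;> linarith [(abs_le.1 (hx i)).1, (abs_le.1 (hx i)).2, (abs_le.1 (hy i)).1,
        (abs_le.1 (hy i)).2])
    have h2 := hQ (fun i => (x i - y i) / 2) (fun i => by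
      rw [abs_le]
      constructor <;> linarith [(abs_le.1 (hx i)).1, (abs_le.1 (hx i)).2, (abs_le.1 (hy i)).1,
        (abs_le.1 (hy i)).2])
    have := abs_le.1 h1
    have := abs_le.1 h2
    linarith [(abs_le.1 h1).2, (abs_le.1 h2).1]
  have hG := Gam_le a hpol
  -- signs
  let sgn : Fin m → ℝ := fun s => if 0 ≤ qf a (x s) then 1 else -1
  have hsgn : ∀ s, sgn s * qf a (x s) = |qf a (x s)| := by
    intro s
    by_cases h : 0 ≤ qf a (x s)
    · simp [sgn, h, abs_of_nonneg h]
    · simp [sgn, h, abs_of_neg (not_le.1 h)]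
  have hsgn2 : ∀ s, sgn s ^ 2 = 1 := by
    intro s
    by_cases h : 0 ≤ qf a (x s) <;> simp [sgn, h]
  have e1 : ∑ s, |qf a (x s)| = hf a (fun i s => x s i) (fun j s => sgn s * x s j) := by
    rw [hf_eq]
    refine Finset.sum_congr rfl fun s _ => ?_
    rw [← hsgn s]
    unfold qf bf
    rw [Finset.mul_sum]
    refine Finset.sum_congr rfl fun i _ => ?_
    rw [Finset.mul_sum]
    refine Finset.sum_congr rfl fun j _ => ?_
    ring
  rw [e1]
  have hst : (Real.sqrt t) ^ 2 = t := Real.sq_sqrt ht.le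
  have h := hf_le a (fun i s => x s i) (fun j s => sgn s * x s j) (Real.sqrt_pos.2 ht)
    (Real.sqrt_pos.2 ht) (fun i => by rw [hst]; exact hx i) (fun i => by
      rw [hst]
      refine le_trans (le_of_eq ?_) (hx i)
      refine Finset.sum_congr rfl fun s _ => ?_
      rw [mul_pow, hsgn2, one_mul])
  rw [← sq, hst] at h
  nlinarith

/-- **Domination**: a quadratic form bounded by `1` on the cube is dominated by a diagonal
form of trace at most `16`. -/
theorem exists_diagonal_dominating (hsym : ∀ i j, a i j = a j i)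
    (hQ : ∀ x : Fin n → ℝ, (∀ i, |x i| ≤ 1) → |qf a x| ≤ 1) :
    ∃ μ : Fin n → ℝ, (∀ i, 0 ≤ μ i) ∧ ∑ i, μ i ≤ 16 ∧ ∀ x, |qf a x| ≤ ∑ i, μ i * x i ^ 2 := by
  rcases Nat.eq_zero_or_pos n with hn | hn
  · subst hn
    refine ⟨fun _ => 0, by simp, by simp, fun x => by simp [qf, bf]⟩
  -- the two convex sets
  let C1 : Set (Fin n → ℝ) := {d | ∃ (m : ℕ) (x : Fin m → Fin n → ℝ),
    ∀ i, 16 * ∑ s, x s i ^ 2 - ∑ s, |qf a (x s)| ≤ d i}
  let C2 : Set (Fin n → ℝ) := {d | ∀ i, d i < 0}
  have hC2o : IsOpen C2 := by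
    have : C2 = ⋂ i, {d : Fin n → ℝ | d i < 0} := by ext d; simp [C2]
    rw [this]
    exact isOpen_iInter_of_finite fun i => isOpen_lt (continuous_apply i) continuous_const
  have hC2c : Convex ℝ C2 := by
    intro x hx y hy s t hs ht hst i
    have h1 := hx i
    have h2 := hy i
    simp only [Pi.add_apply, Pi.smul_apply, smul_eq_mul]
    rcases eq_or_lt_of_le hs with h0 | h0
    · have : t = 1 := by linarith
      rw [← h0, this]; linarith
    · nlinarith
  have qf_smul : ∀ (s : ℝ) (x : Fin n → ℝ), qf a (fun i => s * x i) = s ^ 2 * qf a x := by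
    intro s x
    unfold qf bf
    rw [Finset.mul_sum]
    refine Finset.sum_congr rfl fun i _ => ?_
    rw [Finset.mul_sum]
    refine Finset.sum_congr rfl fun j _ => ?_
    ring
  have hC1c : Convex ℝ C1 := by
    rintro d ⟨m, x, hx⟩ d' ⟨m', x', hx'⟩ s t hs ht hst
    refine ⟨m + m', Fin.append (fun k i => Real.sqrt s * x k i) (fun k i => Real.sqrt t * x' k i),
      fun i => ?_⟩
    rw [Fin.sum_univ_add, Fin.sum_univ_add]
    simp only [Fin.append_left, Fin.append_right, qf_smul, mul_pow, Real.sq_sqrt hs,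
      Real.sq_sqrt ht, abs_mul, abs_of_nonneg hs, abs_of_nonneg ht, ← Finset.mul_sum]
    simp only [Pi.add_apply, Pi.smul_apply, smul_eq_mul]
    have h1 := mul_le_mul_of_nonneg_left (hx i) hs
    have h2 := mul_le_mul_of_nonneg_left (hx' i) ht
    nlinarith
  have hdisj : Disjoint C2 C1 := by
    rw [Set.disjoint_left]
    rintro d hd ⟨m, x, hx⟩
    have hne : (univ : Finset (Fin n)).Nonempty := ⟨⟨0, hn⟩, mem_univ _⟩
    obtain ⟨i0, -, hi0⟩ := Finset.exists_max_image univ (fun i => ∑ s, x s i ^ 2) hne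
    have h1 : 16 * ∑ s, x s i0 ^ 2 < ∑ s, |qf a (x s)| := by
      have := hx i0; have := hd i0; linarith
    have h0 : 0 ≤ ∑ s, x s i0 ^ 2 := Finset.sum_nonneg fun s _ => sq_nonneg _
    obtain ⟨t, ht1, ht2⟩ : ∃ t, ∑ s, x s i0 ^ 2 < t ∧ 16 * t < ∑ s, |qf a (x s)| := by
      refine ⟨((∑ s, x s i0 ^ 2) + (∑ s, |qf a (x s)|) / 16) / 2, by linarith, by linarith⟩
    have := sum_abs_qf_le a hsym hQ x (t := t) (by linarith) (fun i => by
      have := hi0 i (mem_univ _); linarith)
    linarith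
  obtain ⟨f, u, hf1, hf2⟩ := geometric_hahn_banach_open hC2c hC2o hC1c hdisj
  have hzero : (0 : Fin n → ℝ) ∈ C1 := ⟨0, fun s => Fin.elim0 s, by simp⟩
  have hu0 : u ≤ 0 := by simpa using hf2 0 hzero
  have hneg : ∀ d ∈ C2, f d < 0 := fun d hd => lt_of_lt_of_le (hf1 d hd) hu0
  have hcone : ∀ d ∈ C1, 0 ≤ f d := by
    -- u ≥ 0
    have hu : 0 ≤ u := by
      by_contra h
      push Not at h
      -- take -t * 1
      have h1 : ∀ t : ℝ, 0 < t → f (fun _ => -t) < u := fun t ht => hf1 _ (fun i => by simpa using ht)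
      have h2 : ∀ t : ℝ, f (fun _ => -t) = t * f (fun _ => -1) := by
        intro t
        rw [← smul_eq_mul, ← map_smul]
        congr 1
        funext i
        simp
      have h3 := h1 1 one_pos
      have hpos : f (fun _ => -1) < 0 := lt_trans h3 h
      have h4 := h1 (u / (2 * f (fun _ => -1))) (div_pos_of_neg_of_neg h (by linarith))
      rw [h2] at h4
      have h5 : u / (2 * f (fun _ => -1)) * f (fun _ => -1) = u / 2 := by
        have hne : f (fun _ => (-1 : ℝ)) ≠ 0 := hpos.ne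
        rw [div_mul_eq_mul_div, mul_div_mul_right _ _ hne]
      rw [h5] at h4
      linarith
    intro d hd
    exact hu.trans (hf2 d hd)
  -- coordinates of f
  let c : Fin n → ℝ := fun i => f (Pi.single i 1)
  have hfc : ∀ d : Fin n → ℝ, f d = ∑ i, c i * d i := by
    intro d
    have h : d = ∑ i, d i • (Pi.single i (1 : ℝ) : Fin n → ℝ) := by
      funext j
      simp [Finset.sum_apply, Pi.single_apply]
    conv_lhs => rw [h]
    rw [map_sum]
    refine Finset.sum_congr rfl fun i _ => ?_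
    rw [map_smul, smul_eq_mul, mul_comm]
  have hc0 : ∀ i, 0 ≤ c i := by
    intro i
    by_contra h
    push Not at h
    -- d = -e_i - t
    set S := ∑ j, c j with hS
    have hSpos : 0 < S := by
      have := hneg (fun _ => -1) (fun i => by norm_num)
      rw [hfc] at this
      simp only [mul_neg, mul_one, Finset.sum_neg_distrib] at this
      linarith
    set t := -(c i) / (2 * S) with ht
    have htpos : 0 < t := by
      rw [ht]; apply div_pos <;> linarith
    have := hneg (fun j => -(if j = i then 1 else 0) - t) (fun j => by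
      by_cases hj : j = i <;> simp [hj] <;> linarith)
    rw [hfc] at this
    have e : ∑ j, c j * (-(if j = i then 1 else 0) - t) = - c i - t * S := by
      rw [hS, Finset.mul_sum]
      have : ∀ j, c j * (-(if j = i then (1 : ℝ) else 0) - t)
          = (if j = i then - c j else 0) - t * c j := by
        intro j; by_cases hj : j = i <;> simp [hj] <;> ring
      rw [Finset.sum_congr rfl fun j _ => this j, Finset.sum_sub_distrib]
      simp
    rw [e, ht] at this
    have h2 : -(c i) / (2 * S) * S = -(c i) / 2 := by field_simp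
    rw [h2] at this
    linarith
  have hSpos : 0 < ∑ j, c j := by
    have := hneg (fun _ => -1) (fun i => by norm_num)
    rw [hfc] at this
    simp only [mul_neg, mul_one, Finset.sum_neg_distrib] at this
    linarith
  refine ⟨fun i => 16 * c i / ∑ j, c j, fun i => ?_, ?_, fun x => ?_⟩
  · have := hc0 i
    positivity
  · rw [← Finset.sum_div, ← Finset.mul_sum, mul_div_assoc, div_self hSpos.ne', mul_one]
  · have h := hcone (fun i => 16 * x i ^ 2 - |qf a x|) ⟨1, fun _ => x, fun i => by simp⟩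
    rw [hfc] at h
    have e : ∑ i, c i * (16 * x i ^ 2 - |qf a x|) = 16 * ∑ i, c i * x i ^ 2
        - |qf a x| * ∑ i, c i := by
      rw [Finset.mul_sum, Finset.mul_sum, ← Finset.sum_sub_distrib]
      refine Finset.sum_congr rfl fun i _ => ?_
      ring
    rw [e] at h
    have e2 : ∑ i, 16 * c i / (∑ j, c j) * x i ^ 2 = 16 * (∑ i, c i * x i ^ 2) / ∑ j, c j := by
      rw [Finset.mul_sum, Finset.sum_div]
      refine Finset.sum_congr rfl fun i _ => ?_
      ring
    rw [e2, le_div_iff₀ hSpos]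
    linarith

end

end Pool.Agent.SymASQ
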