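import Mathlib

/-!
# Almost square Banach spaces and symmetric projective tensor products

* `IsASQ X` : the real normed space `X` is almost square.
* `symTensor N X` : the algebraic symmetric tensor product, the linear span of the elementary
  symmetric tensors `x ⊗ ... ⊗ x` inside the `N`-fold algebraic tensor product.
* `SymProj N X` : the same space, carrying the symmetric projective norm `piS`.
* `SymProjCompletion N X` : its completion, the symmetric projective tensor product.
-/

namespace Pool.Agent.SymASQ

open scoped TensorProduct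

/-- A real normed space `X` is *almost square* if for every finite family `x₁, …, x_k` of norm
one vectors and every `ε > 0` there is a norm one vector `y` with `‖x_i ± y‖ ≤ 1 + ε`
for all `i`. -/
def IsASQ (X : Type*) [NormedAddCommGroup X] [NormedSpace ℝ X] : Prop :=
  ∀ (k : ℕ) (x : Fin k → X), (∀ i, ‖x i‖ = 1) → ∀ ε : ℝ, 0 < ε →
    ∃ y : X, ‖y‖ = 1 ∧ ∀ i, ‖x i + y‖ ≤ 1 + ε ∧ ‖x i - y‖ ≤ 1 + ε

/-- The elementary symmetric tensor `x ⊗ x ⊗ ⋯ ⊗ x` (`N` factors). -/
noncomputable def elemTensor (N : ℕ) {X : Type*} [NormedAddCommGroup X] [NormedSpace ℝ X]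
    (x : X) : ⨂[ℝ] _ : Fin N, X :=
  PiTensorProduct.tprod ℝ (fun _ : Fin N => x)

/-- The algebraic symmetric tensor product `⊗ₛᴺ X`: the linear span of the elementary symmetric
tensors `x ⊗ x ⊗ ⋯ ⊗ x` inside the `N`-fold algebraic tensor product. -/
def symTensor (N : ℕ) (X : Type*) [NormedAddCommGroup X] [NormedSpace ℝ X] :
    Submodule ℝ (⨂[ℝ] _ : Fin N, X) :=
  Submodule.span ℝ (Set.range fun x : X => elemTensor N x)

/-- The algebraic symmetric tensor product as a type, which will carry the symmetric
projective norm. -/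
def SymProj (N : ℕ) (X : Type*) [NormedAddCommGroup X] [NormedSpace ℝ X] : Type _ :=
  symTensor N X

variable (N : ℕ) (X : Type*) [NormedAddCommGroup X] [NormedSpace ℝ X]

noncomputable instance : AddCommGroup (SymProj N X) :=
  inferInstanceAs (AddCommGroup (symTensor N X))

noncomputable instance : Module ℝ (SymProj N X) :=
  inferInstanceAs (Module ℝ (symTensor N X))

/-- The inclusion of the symmetric tensors in the full algebraic tensor product. -/
def SymProj.incl : SymProj N X →ₗ[ℝ] (⨂[ℝ] _ : Fin N, X) := (symTensor N X).subtype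

variable {N X}

/-- The set of all numbers `∑ |λ_i| ‖x_i‖ᴺ`, over all finite representations
`u = ∑ λ_i x_i ⊗ ⋯ ⊗ x_i`. -/
def repValues (u : SymProj N X) : Set ℝ :=
  {r | ∃ (m : ℕ) (c : Fin m → ℝ) (x : Fin m → X),
    SymProj.incl N X u = ∑ i, c i • elemTensor N (x i) ∧ r = ∑ i, |c i| * ‖x i‖ ^ N}

/-- The symmetric projective norm: the infimum of `∑ |λ_i| ‖x_i‖ᴺ` over all finite
representations `u = ∑ λ_i x_i ⊗ ⋯ ⊗ x_i`. -/
noncomputable def piS (u : SymProj N X) : ℝ := sInf (repValues u)

lemma repValues_nonneg (u : SymProj N X) : ∀ r ∈ repValues u, 0 ≤ r := by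
  rintro r ⟨m, c, x, -, rfl⟩
  exact Finset.sum_nonneg fun i _ => by positivity

lemma repValues_bddBelow (u : SymProj N X) : BddBelow (repValues u) :=
  ⟨0, fun r hr => repValues_nonneg u r hr⟩

lemma repValues_nonempty (u : SymProj N X) : (repValues u).Nonempty := by
  have hu : SymProj.incl N X u ∈ symTensor N X := u.2
  unfold symTensor at hu
  rw [Finsupp.mem_span_range_iff_exists_finsupp] at hu
  obtain ⟨c, hc⟩ := hu
  let e := c.support.equivFin
  refine ⟨_, c.support.card, fun i => c (e.symm i), fun i => (e.symm i : X), ?_, rfl⟩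
  rw [← hc, Finsupp.sum]
  rw [← Finset.sum_coe_sort c.support, ← e.symm.sum_comp]

lemma piS_nonneg (u : SymProj N X) : 0 ≤ piS u :=
  Real.sInf_nonneg (repValues_nonneg u)

lemma piS_add_le (u v : SymProj N X) : piS (u + v) ≤ piS u + piS v := by
  unfold piS
  rw [← csInf_add (repValues_nonempty u) (repValues_bddBelow u) (repValues_nonempty v)
    (repValues_bddBelow v)]
  refine csInf_le_csInf (repValues_bddBelow _)
    ((repValues_nonempty u).add (repValues_nonempty v)) ?_
  rintro _ ⟨r, ⟨m, c, x, h1, rfl⟩, s, ⟨m', c', x', h2, rfl⟩, rfl⟩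
  refine ⟨m + m', Fin.append c c', Fin.append x x', ?_, ?_⟩
  · rw [map_add, h1, h2, Fin.sum_univ_add]
    simp
  · rw [Fin.sum_univ_add]
    simp

lemma piS_zero : piS (0 : SymProj N X) = 0 := by
  refine le_antisymm ?_ (piS_nonneg _)
  exact csInf_le (repValues_bddBelow _) ⟨0, fun _ => 0, fun _ => 0, by simp, by simp⟩

lemma piS_smul_le (a : ℝ) (u : SymProj N X) : piS (a • u) ≤ ‖a‖ * piS u := by
  unfold piS
  rcases eq_or_ne a 0 with rfl | ha
  · have := piS_zero (N := N) (X := X)
    unfold piS at this
    simp [this]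
  · have h : 0 < ‖a‖ := norm_pos_iff.2 ha
    rw [← div_le_iff₀' h]
    refine le_csInf (repValues_nonempty u) ?_
    rintro _ ⟨m, c, x, h1, rfl⟩
    rw [div_le_iff₀' h]
    refine csInf_le (repValues_bddBelow _) ⟨m, fun i => a * c i, x, ?_, ?_⟩
    · rw [map_smul, h1, Finset.smul_sum]
      exact Finset.sum_congr rfl fun i _ => by rw [smul_smul]
    · rw [Finset.mul_sum]
      exact Finset.sum_congr rfl fun i _ => by rw [abs_mul, Real.norm_eq_abs]; ring

/-- The symmetric projective norm as a seminorm. -/
noncomputable def piSeminorm (N : ℕ) (X : Type*) [NormedAddCommGroup X] [NormedSpace ℝ X] :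
    Seminorm ℝ (SymProj N X) :=
  Seminorm.ofSMulLE piS piS_zero piS_add_le piS_smul_le

noncomputable instance : SeminormedAddCommGroup (SymProj N X) :=
  (piSeminorm N X).toAddGroupSeminorm.toSeminormedAddCommGroup

lemma norm_eq_piS (u : SymProj N X) : ‖u‖ = piS u := rfl

noncomputable instance : NormedSpace ℝ (SymProj N X) where
  norm_smul_le a u := piS_smul_le a u

/-- The symmetric projective tensor product: the completion of the algebraic symmetric tensor
product for the symmetric projective norm. -/
abbrev SymProjCompletion (N : ℕ) (X : Type*) [NormedAddCommGroup X] [NormedSpace ℝ X] : Type _ :=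
  UniformSpace.Completion (SymProj N X)

end Pool.Agent.SymASQ
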