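import Pool.Agent.SymASQ.Defs
import Pool.Agent.SymASQ.Groth

/-!
# The symmetric projective tensor square of `c₀` is not almost square
-/

namespace Pool.Agent.SymASQ

open Finset Filter Topology
open scoped TensorProduct ZeroAtInfty

/-- The real Banach space `c₀` -/
abbrev c0 : Type := C₀(ℕ, ℝ)

/-! ### basic facts on `c₀` -/

lemma abs_le_norm (x : c0) (i : ℕ) : |x i| ≤ ‖x‖ := by
  have := (x.toBCF).norm_coe_le_norm i
  rwa [ZeroAtInftyContinuousMap.norm_toBCF_eq_norm] at this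

lemma norm_le_of (x : c0) {C : ℝ} (hC : 0 ≤ C) (h : ∀ i, |x i| ≤ C) : ‖x‖ ≤ C := by
  rw [← ZeroAtInftyContinuousMap.norm_toBCF_eq_norm]
  exact (BoundedContinuousFunction.norm_le hC).2 h

lemma tendsto_coord (x : c0) : Tendsto (fun i => x i) atTop (𝓝 0) := by
  have := x.zero_at_infty'
  rwa [cocompact_eq_atTop] at this

/-- finitely supported elements of `c₀` -/
def mk0 (m : ℕ) (t : Fin m → ℝ) : c0 where
  toFun i := if h : i < m then t ⟨i, h⟩ else 0
  continuous_toFun := continuous_of_discreteTopology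
  zero_at_infty' := by
    rw [cocompact_eq_atTop]
    refine tendsto_const_nhds.congr' ?_
    filter_upwards [eventually_ge_atTop m] with i hi
    simp [not_lt.2 hi]

lemma mk0_apply (m : ℕ) (t : Fin m → ℝ) (i : ℕ) :
    mk0 m t i = if h : i < m then t ⟨i, h⟩ else 0 := rfl

lemma norm_mk0_le (m : ℕ) (t : Fin m → ℝ) {C : ℝ} (hC : 0 ≤ C) (h : ∀ i, |t i| ≤ C) :
    ‖mk0 m t‖ ≤ C := by
  refine norm_le_of _ hC fun i => ?_
  rw [mk0_apply]
  split_ifs with hi
  · exact h _
  · simpa using hC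

/-- unit vectors -/
def e0 (n : ℕ) : c0 := mk0 (n + 1) (fun i => if (i : ℕ) = n then 1 else 0)

lemma e0_apply (n i : ℕ) : e0 n i = if i = n then 1 else 0 := by
  unfold e0
  rw [mk0_apply]
  by_cases h : i = n
  · subst h; simp
  · by_cases h' : i < n + 1 <;> simp [h, h']

lemma norm_e0 (n : ℕ) : ‖e0 n‖ = 1 := by
  refine le_antisymm (norm_le_of _ zero_le_one fun i => ?_) ?_
  · rw [e0_apply]; split_ifs <;> simp
  · have := abs_le_norm (e0 n) n
    rw [e0_apply] at this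
    simpa using this

/-- `c₀` is almost square. -/
lemma isASQ_c0 : IsASQ c0 := by
  intro k x hx ε hε
  have h : ∀ i, ∀ᶠ n in atTop, |x i n| ≤ ε := by
    intro i
    have := (tendsto_coord (x i)).abs
    rw [abs_zero] at this
    exact this.eventually (eventually_le_nhds hε)
  obtain ⟨n, hn⟩ := (eventually_all.2 h).exists
  refine ⟨e0 n, norm_e0 n, fun i => ⟨?_, ?_⟩⟩
  · refine norm_le_of _ (by linarith) fun j => ?_
    rw [ZeroAtInftyContinuousMap.add_apply, e0_apply]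
    by_cases hj : j = n
    · subst hj
      simp only [if_true]
      calc |x i j + 1| ≤ |x i j| + |1| := abs_add_le _ _
        _ ≤ 1 + ε := by rw [abs_one]; linarith [hn i]
    · simp only [hj, if_false, add_zero]
      have := abs_le_norm (x i) j
      rw [hx i] at this
      linarith
  · refine norm_le_of _ (by linarith) fun j => ?_
    rw [ZeroAtInftyContinuousMap.sub_apply, e0_apply]
    by_cases hj : j = n
    · subst hj
      simp only [if_true]
      calc |x i j - 1| ≤ |x i j| + |1| := abs_sub _ _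
        _ ≤ 1 + ε := by rw [abs_one]; linarith [hn i]
    · simp only [hj, if_false, sub_zero]
      have := abs_le_norm (x i) j
      rw [hx i] at this
      linarith

/-! ### the symmetric tensor product -/

section general

variable {X : Type*} [NormedAddCommGroup X] [NormedSpace ℝ X]

/-- elementary symmetric tensor as an element of the normed space -/
noncomputable def el (x : X) : SymProj 2 X :=
  ⟨elemTensor 2 x, Submodule.subset_span ⟨x, rfl⟩⟩

lemma incl_el (x : X) : SymProj.incl 2 X (el x) = elemTensor 2 x := rfl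

lemma incl_injective : Function.Injective (SymProj.incl 2 X) := Subtype.val_injective

lemma norm_el_le (x : X) : ‖el x‖ ≤ ‖x‖ ^ 2 := by
  rw [norm_eq_piS]
  exact csInf_le (repValues_bddBelow _) ⟨1, fun _ => 1, fun _ => x, by simp [incl_el], by simp⟩

lemma exists_rep (u : SymProj 2 X) : ∃ (m : ℕ) (c : Fin m → ℝ) (x : Fin m → X),
    u = ∑ i, c i • el (x i) := by
  obtain ⟨r, m, c, x, h, -⟩ := repValues_nonempty u
  refine ⟨m, c, x, incl_injective ?_⟩
  rw [h, map_sum]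
  rfl

lemma lin_ext {M : Type*} [AddCommMonoid M] [Module ℝ M] {f g : SymProj 2 X →ₗ[ℝ] M}
    (h : ∀ x, f (el x) = g (el x)) : f = g := by
  ext u
  obtain ⟨m, c, x, rfl⟩ := exists_rep u
  simp [map_sum, h]

/-- A linear functional on the symmetric tensors is bounded by `1` as soon as the associated
polynomial is bounded by `‖x‖^2`. -/
lemma abs_le_of_forall {f : SymProj 2 X →ₗ[ℝ] ℝ} (h : ∀ x, |f (el x)| ≤ ‖x‖ ^ 2)
    (u : SymProj 2 X) : |f u| ≤ ‖u‖ := by
  rw [norm_eq_piS]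
  refine le_csInf (repValues_nonempty u) ?_
  rintro _ ⟨m, c, x, h1, rfl⟩
  have hu : u = ∑ i, c i • el (x i) := incl_injective (by rw [h1, map_sum]; rfl)
  rw [hu, map_sum]
  refine (Finset.abs_sum_le_sum_abs _ _).trans (Finset.sum_le_sum fun i _ => ?_)
  rw [map_smul, smul_eq_mul, abs_mul]
  exact mul_le_mul_of_nonneg_left (h _) (abs_nonneg _)

/-- the polarised symmetric tensor -/
noncomputable def sy (x y : X) : SymProj 2 X := (2 : ℝ)⁻¹ • (el (x + y) - el x - el y)

lemma incl_sy (x y : X) : SymProj.incl 2 X (sy x y) =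
    (2 : ℝ)⁻¹ • (PiTensorProduct.tprod ℝ ![x, y] + PiTensorProduct.tprod ℝ ![y, x]) := by
  unfold sy
  rw [map_smul, map_sub, map_sub, incl_el, incl_el, incl_el]
  congr 1
  unfold elemTensor
  have h1 : (fun _ : Fin 2 => x + y) = ![x + y, x + y] := by
    funext i; fin_cases i <;> rfl
  have h2 : (fun _ : Fin 2 => x) = ![x, x] := by funext i; fin_cases i <;> rfl
  have h3 : (fun _ : Fin 2 => y) = ![y, y] := by funext i; fin_cases i <;> rfl
  rw [h1, h2, h3]
  have add_left : ∀ a b c : X, (PiTensorProduct.tprod ℝ ![a + b, c] : ⨂[ℝ] _ : Fin 2, X)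
      = PiTensorProduct.tprod ℝ ![a, c] + PiTensorProduct.tprod ℝ ![b, c] := by
    intro a b c
    have h := (PiTensorProduct.tprod ℝ (s := fun _ : Fin 2 => X)).map_update_add ![a, c] 0 a b
    have u1 : ∀ z : X, Function.update ![a, c] 0 z = ![z, c] := by
      intro z; funext i; fin_cases i <;> simp
    rwa [u1, u1, u1] at h
  have add_right : ∀ a b c : X, (PiTensorProduct.tprod ℝ ![c, a + b] : ⨂[ℝ] _ : Fin 2, X)
      = PiTensorProduct.tprod ℝ ![c, a] + PiTensorProduct.tprod ℝ ![c, b] := by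
    intro a b c
    have h := (PiTensorProduct.tprod ℝ (s := fun _ : Fin 2 => X)).map_update_add ![c, a] 1 a b
    have u1 : ∀ z : X, Function.update ![c, a] 1 z = ![c, z] := by
      intro z; funext i; fin_cases i <;> simp
    rwa [u1, u1, u1] at h
  rw [add_left, add_right, add_right]
  abel

lemma sy_self (x : X) : sy x x = el x := by
  refine incl_injective ?_
  rw [incl_sy, incl_el]
  have h2 : (fun _ : Fin 2 => x) = ![x, x] := by funext i; fin_cases i <;> rfl
  unfold elemTensor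
  rw [h2, ← two_smul ℝ, smul_smul]
  norm_num

lemma sy_comm (x y : X) : sy x y = sy y x := by
  refine incl_injective ?_
  rw [incl_sy, incl_sy, add_comm]

lemma sy_add_left (x y z : X) : sy (x + y) z = sy x z + sy y z := by
  refine incl_injective ?_
  rw [map_add, incl_sy, incl_sy, incl_sy, ← smul_add]
  congr 1
  have add_left : ∀ a b c : X, (PiTensorProduct.tprod ℝ ![a + b, c] : ⨂[ℝ] _ : Fin 2, X)
      = PiTensorProduct.tprod ℝ ![a, c] + PiTensorProduct.tprod ℝ ![b, c] := by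
    intro a b c
    have h := (PiTensorProduct.tprod ℝ (s := fun _ : Fin 2 => X)).map_update_add ![a, c] 0 a b
    have u1 : ∀ z : X, Function.update ![a, c] 0 z = ![z, c] := by
      intro z; funext i; fin_cases i <;> simp
    rwa [u1, u1, u1] at h
  have add_right : ∀ a b c : X, (PiTensorProduct.tprod ℝ ![c, a + b] : ⨂[ℝ] _ : Fin 2, X)
      = PiTensorProduct.tprod ℝ ![c, a] + PiTensorProduct.tprod ℝ ![c, b] := by
    intro a b c
    have h := (PiTensorProduct.tprod ℝ (s := fun _ : Fin 2 => X)).map_update_add ![c, a] 1 a b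
    have u1 : ∀ z : X, Function.update ![c, a] 1 z = ![c, z] := by
      intro z; funext i; fin_cases i <;> simp
    rwa [u1, u1, u1] at h
  rw [add_left, add_right]
  abel

lemma sy_smul_left (a : ℝ) (x z : X) : sy (a • x) z = a • sy x z := by
  refine incl_injective ?_
  rw [map_smul, incl_sy, incl_sy, smul_comm a]
  congr 1
  have h1 : (PiTensorProduct.tprod ℝ ![a • x, z] : ⨂[ℝ] _ : Fin 2, X)
      = a • PiTensorProduct.tprod ℝ ![x, z] := by
    have h := (PiTensorProduct.tprod ℝ (s := fun _ : Fin 2 => X)).map_update_smul ![x, z] 0 a x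
    have u1 : ∀ w : X, Function.update ![x, z] 0 w = ![w, z] := by
      intro w; funext i; fin_cases i <;> simp
    rwa [u1, u1] at h
  have h2 : (PiTensorProduct.tprod ℝ ![z, a • x] : ⨂[ℝ] _ : Fin 2, X)
      = a • PiTensorProduct.tprod ℝ ![z, x] := by
    have h := (PiTensorProduct.tprod ℝ (s := fun _ : Fin 2 => X)).map_update_smul ![z, x] 1 a x
    have u1 : ∀ w : X, Function.update ![z, x] 1 w = ![z, w] := by
      intro w; funext i; fin_cases i <;> simp
    rwa [u1, u1] at h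
  rw [h1, h2, smul_add]

/-- the symmetric tensor `sy x y` as a bilinear map -/
noncomputable def syB : X →ₗ[ℝ] X →ₗ[ℝ] SymProj 2 X :=
  LinearMap.mk₂ ℝ sy sy_add_left sy_smul_left
    (fun x y z => by rw [sy_comm, sy_add_left, sy_comm y, sy_comm z])
    (fun a x y => by rw [sy_comm, sy_smul_left, sy_comm y])

lemma syB_apply (x y : X) : syB x y = sy x y := rfl

lemma el_sub (x y : X) : el x - el y = sy (x + y) (x - y) := by
  rw [← syB_apply, ← sy_self, ← sy_self, ← syB_apply, ← syB_apply]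
  simp only [map_add, map_sub, LinearMap.add_apply]
  rw [syB_apply x y, syB_apply y x, sy_comm x y]
  abel

lemma norm_sy_le (x y : X) : ‖sy x y‖ ≤ (‖x‖ + ‖y‖) ^ 2 := by
  unfold sy
  have h1 := norm_el_le (x + y)
  have h2 := norm_el_le x
  have h3 := norm_el_le y
  have h4 : ‖x + y‖ ^ 2 ≤ (‖x‖ + ‖y‖) ^ 2 := by
    gcongr
    exact norm_add_le x y
  rw [norm_smul]
  have h5 : ‖el (x + y) - el x - el y‖ ≤ ‖el (x + y)‖ + ‖el x‖ + ‖el y‖ :=
    (norm_sub_le _ _).trans (by gcongr; exact norm_sub_le _ _)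
  have h6 : ‖(2 : ℝ)⁻¹‖ = 2⁻¹ := by norm_num
  rw [h6]
  nlinarith [norm_nonneg x, norm_nonneg y]

/-- homogeneous bound -/
lemma norm_sy_le' (x y : X) : ‖sy x y‖ ≤ 4 * (‖x‖ * ‖y‖) := by
  by_cases hx : x = 0
  · subst hx
    have : sy (0 : X) y = 0 := by rw [← syB_apply]; simp
    rw [this]; simp
  by_cases hy : y = 0
  · subst hy
    have : sy x (0 : X) = 0 := by rw [← syB_apply]; simp
    rw [this]; simp
  have hx' : 0 < ‖x‖ := norm_pos_iff.2 hx
  have hy' : 0 < ‖y‖ := norm_pos_iff.2 hy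
  have h := norm_sy_le (‖x‖⁻¹ • x) (‖y‖⁻¹ • y)
  rw [norm_smul, norm_smul, norm_inv, norm_inv, norm_norm, norm_norm, inv_mul_cancel₀ hx'.ne',
    inv_mul_cancel₀ hy'.ne'] at h
  have e : sy (‖x‖⁻¹ • x) (‖y‖⁻¹ • y) = (‖x‖⁻¹ * ‖y‖⁻¹) • sy x y := by
    rw [← syB_apply, map_smul, map_smul, LinearMap.smul_apply, smul_smul, syB_apply, mul_comm]
  rw [e, norm_smul, norm_mul, norm_inv, norm_inv, norm_norm, norm_norm] at h
  have h2 : ‖sy x y‖ = (‖x‖ * ‖y‖) * (‖x‖⁻¹ * ‖y‖⁻¹ * ‖sy x y‖) := by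
    field_simp
  rw [h2]
  calc (‖x‖ * ‖y‖) * (‖x‖⁻¹ * ‖y‖⁻¹ * ‖sy x y‖) ≤ (‖x‖ * ‖y‖) * (1 + 1) ^ 2 := by gcongr
    _ = 4 * (‖x‖ * ‖y‖) := by ring

end general

/-! ### functionals given by finite matrices -/

/-- evaluation at `i` on `c₀` -/
def coord (i : ℕ) : c0 →ₗ[ℝ] ℝ where
  toFun x := x i
  map_add' _ _ := rfl
  map_smul' _ _ := rfl

/-- the multilinear map `(x, y) ↦ x i * y j` -/
noncomputable def cc (i j : ℕ) : MultilinearMap ℝ (fun _ : Fin 2 => c0) ℝ :=
  (MultilinearMap.mkPiAlgebra ℝ (Fin 2) ℝ).compLinearMap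
    (fun k => if k = 0 then coord i else coord j)

/-- the functional on symmetric tensors given by a finite matrix -/
noncomputable def Lf {m : ℕ} (A : Fin m → Fin m → ℝ) : SymProj 2 c0 →ₗ[ℝ] ℝ :=
  (PiTensorProduct.lift (∑ i : Fin m, ∑ j : Fin m, A i j • cc i j)) ∘ₗ SymProj.incl 2 c0

lemma Lf_el {m : ℕ} (A : Fin m → Fin m → ℝ) (x : c0) :
    Lf A (el x) = qf A (fun i => x i) := by
  unfold Lf qf bf
  rw [LinearMap.comp_apply, incl_el]
  unfold elemTensor
  rw [PiTensorProduct.lift.tprod]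
  simp only [_root_.sum_apply, _root_.smul_apply, smul_eq_mul]
  refine Finset.sum_congr rfl fun i _ => Finset.sum_congr rfl fun j _ => ?_
  simp [cc, coord]

lemma Lf_abs_le {m : ℕ} (A : Fin m → Fin m → ℝ)
    (hA : ∀ t : Fin m → ℝ, (∀ i, |t i| ≤ 1) → |qf A t| ≤ 1) (u : SymProj 2 c0) :
    |Lf A u| ≤ ‖u‖ := by
  refine abs_le_of_forall (fun x => ?_) u
  rw [Lf_el]
  by_cases hx : x = 0
  · subst hx
    simp [qf, bf]
  have hx' : 0 < ‖x‖ := norm_pos_iff.2 hx
  have h := hA (fun i => ‖x‖⁻¹ * x i) (fun i => by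
    rw [abs_mul, abs_inv, abs_norm, inv_mul_le_iff₀ hx', mul_one]
    exact abs_le_norm x i)
  have e : qf A (fun i : Fin m => ‖x‖⁻¹ * x i) = (‖x‖⁻¹) ^ 2 * qf A (fun i => x i) := by
    unfold qf bf
    rw [Finset.mul_sum]
    refine Finset.sum_congr rfl fun i _ => ?_
    rw [Finset.mul_sum]
    refine Finset.sum_congr rfl fun j _ => ?_
    ring
  rw [e, abs_mul, abs_of_nonneg (by positivity : 0 ≤ (‖x‖⁻¹) ^ 2), inv_pow,
    inv_mul_le_iff₀ (by positivity), mul_one] at h
  exact h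

/-- the key duality estimate at `e₀ ⊗ e₀` -/
lemma test {m : ℕ} (A : Fin (m + 1) → Fin (m + 1) → ℝ)
    (hA : ∀ t : Fin (m + 1) → ℝ, (∀ i, |t i| ≤ 1) → |qf A t| ≤ 1) {u : SymProj 2 c0} {ε : ℝ}
    (h1 : ‖el (e0 0) + u‖ ≤ 1 + ε) (h2 : ‖el (e0 0) - u‖ ≤ 1 + ε) :
    |A 0 0| + |Lf A u| ≤ 1 + ε := by
  have h0 : Lf A (el (e0 0)) = A 0 0 := by
    rw [Lf_el]
    unfold qf bf
    rw [Finset.sum_eq_single 0, Finset.sum_eq_single 0]
    · simp [e0_apply]
    · intro j _ hj
      have : ((j : ℕ) = 0) = False := by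
        simp only [eq_iff_iff, iff_false]
        intro h; exact hj (Fin.ext h)
      simp [e0_apply, this]
    · simp
    · intro i _ hi
      refine Finset.sum_eq_zero fun j _ => ?_
      have : ((i : ℕ) = 0) = False := by
        simp only [eq_iff_iff, iff_false]
        intro h; exact hi (Fin.ext h)
      simp [e0_apply, this]
    · simp
  have k1 := (Lf_abs_le A hA (el (e0 0) + u)).trans h1
  have k2 := (Lf_abs_le A hA (el (e0 0) - u)).trans h2
  rw [map_add, h0] at k1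
  rw [map_sub, h0] at k2
  rcases abs_cases (A 0 0) with ⟨ha, -⟩ | ⟨ha, -⟩ <;>
  rcases abs_cases (Lf A u) with ⟨hb, -⟩ | ⟨hb, -⟩ <;> rw [ha, hb] <;>
  linarith [(abs_le.1 k1).1, (abs_le.1 k1).2, (abs_le.1 k2).1, (abs_le.1 k2).2]

/-! ### block matrices -/

/-- symmetric block matrix, with quadratic form `α t₀² + t₀ l(t') + B(t')` -/
noncomputable def blk {m : ℕ} (α : ℝ) (l : Fin m → ℝ) (B : Fin m → Fin m → ℝ) :
    Fin (m + 1) → Fin (m + 1) → ℝ := fun i j =>
  Fin.cases (motive := fun _ => ℝ)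
    (Fin.cases (motive := fun _ => ℝ) α (fun j' => l j' / 2) j)
    (fun i' => Fin.cases (motive := fun _ => ℝ) (l i' / 2) (fun j' => B i' j') j) i

lemma qf_blk {m : ℕ} (α : ℝ) (l : Fin m → ℝ) (B : Fin m → Fin m → ℝ) (t : Fin (m + 1) → ℝ) :
    qf (blk α l B) t = α * t 0 ^ 2 + t 0 * ∑ j, l j * t j.succ + qf B (fun i => t i.succ) := by
  unfold qf bf
  rw [Fin.sum_univ_succ]
  simp only [Fin.sum_univ_succ (n := m), blk, Fin.cases_zero, Fin.cases_succ]
  rw [Finset.sum_add_distrib]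
  have h1 : ∑ x : Fin m, l x / 2 * (t 0 * t x.succ) = t 0 * (∑ j, l j * t j.succ) / 2 := by
    rw [Finset.mul_sum, Finset.sum_div]
    exact Finset.sum_congr rfl fun i _ => by ring
  have h2 : ∑ x : Fin m, l x / 2 * (t x.succ * t 0) = t 0 * (∑ j, l j * t j.succ) / 2 := by
    rw [Finset.mul_sum, Finset.sum_div]
    exact Finset.sum_congr rfl fun i _ => by ring
  rw [h1, h2]
  ring

lemma Lf_lin {m : ℕ} {A B C D : Fin m → Fin m → ℝ} {b c d : ℝ}
    (h : ∀ t, qf A t = b * qf B t + c * qf C t + d * qf D t) (u : SymProj 2 c0) :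
    Lf A u = b * Lf B u + c * Lf C u + d * Lf D u := by
  have : Lf A = b • Lf B + c • Lf C + d • Lf D := by
    refine lin_ext fun x => ?_
    simp only [LinearMap.add_apply, LinearMap.smul_apply, Lf_el, smul_eq_mul]
    exact h _
  rw [this]
  simp

section estimate

variable {m : ℕ} {u : SymProj 2 c0} {ε : ℝ}
  (h1 : ‖el (e0 0) + u‖ ≤ 1 + ε) (h2 : ‖el (e0 0) - u‖ ≤ 1 + ε)

lemma qf_zero {m : ℕ} (t : Fin m → ℝ) : qf (fun _ _ => (0 : ℝ)) t = 0 := by simp [qf, bf]

include h1 h2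

lemma est0 : |Lf (blk (m := m) 1 (fun _ => 0) (fun _ _ => 0)) u| ≤ ε := by
  have := test (blk (m := m) 1 (fun _ => 0) (fun _ _ => 0)) (fun t ht => by
    rw [qf_blk, qf_zero]
    simp only [one_mul, zero_mul, Finset.sum_const_zero, mul_zero, add_zero]
    rw [abs_of_nonneg (sq_nonneg _)]
    exact (sq_le_one_iff_abs_le_one _).2 (ht 0)) h1 h2
  have h : |blk (m := m) 1 (fun _ => 0) (fun _ _ => 0) 0 0| = 1 := by simp [blk]
  rw [h] at this
  linarith

lemma est2 (R : Fin m → Fin m → ℝ)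
    (hR : ∀ t : Fin m → ℝ, (∀ i, |t i| ≤ 1) → 0 ≤ qf R t ∧ qf R t ≤ 1) :
    |Lf (blk 0 (fun _ => 0) R) u| ≤ 2 * ε := by
  have hneg : ∀ t, qf (fun i j => - R i j) t = - qf R t := by
    intro t
    unfold qf bf
    rw [← Finset.sum_neg_distrib]
    refine Finset.sum_congr rfl fun i _ => ?_
    rw [← Finset.sum_neg_distrib]
    exact Finset.sum_congr rfl fun j _ => by ring
  have := test (blk 1 (fun _ => 0) (fun i j => - R i j)) (fun t ht => by
    rw [qf_blk, hneg]
    simp only [one_mul, zero_mul, Finset.sum_const_zero, mul_zero, add_zero]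
    have h3 := hR (fun i => t i.succ) (fun i => ht _)
    have h4 : t 0 ^ 2 ≤ 1 := (sq_le_one_iff_abs_le_one _).2 (ht 0)
    have h5 := sq_nonneg (t 0)
    rw [abs_le]
    constructor <;> linarith [h3.1, h3.2]) h1 h2
  have h : |blk 1 (fun _ => 0) (fun i j => - R i j) 0 0| = 1 := by simp [blk]
  rw [h] at this
  have hl := Lf_lin (A := blk 1 (fun _ => 0) (fun i j => - R i j))
    (B := blk (m := m) 1 (fun _ => 0) (fun _ _ => 0)) (C := blk 0 (fun _ => 0) R)
    (D := fun _ _ => 0) (b := 1) (c := -1) (d := 0) (fun t => by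
      simp only [qf_blk, hneg, qf_zero, zero_mul, Finset.sum_const_zero]; ring) u
  rw [hl] at this
  have h0 := est0 (m := m) h1 h2
  have h8 := abs_le.1 h0
  have h7 := abs_le.1 ((add_le_add_iff_left (1 : ℝ)).1 this)
  rw [abs_le]
  constructor <;> linarith [h7.1, h7.2, h8.1, h8.2]

lemma est1 (l : Fin m → ℝ) (hl : ∀ t : Fin m → ℝ, (∀ i, |t i| ≤ 1) → |∑ j, l j * t j| ≤ 1)
    {c : ℝ} (hc : 0 < c) (hc2 : c ≤ 1 / 2) :
    c * |Lf (blk 0 l (fun _ _ => 0)) u| ≤ 5 / 2 * ε + c ^ 2 := by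
  have hsq : ∀ t, qf (fun i j => l i * l j) t = (∑ j, l j * t j) ^ 2 := by
    intro t
    unfold qf bf
    rw [sq, Finset.sum_mul_sum]
    refine Finset.sum_congr rfl fun i _ => Finset.sum_congr rfl fun j _ => ?_
    ring
  have hsq' : ∀ t, qf (fun i j => -(1 / 4) * (l i * l j)) t = -(1 / 4) * (∑ j, l j * t j) ^ 2 := by
    intro t
    rw [← hsq]
    unfold qf bf
    rw [Finset.mul_sum]
    refine Finset.sum_congr rfl fun i _ => ?_
    rw [Finset.mul_sum]
    refine Finset.sum_congr rfl fun j _ => ?_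
    ring
  have hcl : ∀ t : Fin m → ℝ, ∑ j, c * l j * t j = c * ∑ j, l j * t j := by
    intro t
    rw [Finset.mul_sum]
    exact Finset.sum_congr rfl fun j _ => by ring
  have key := test (blk (1 - c ^ 2) (fun j => c * l j) (fun i j => -(1 / 4) * (l i * l j)))
    (fun t ht => by
      rw [qf_blk, hsq', hcl]
      set L := ∑ j, l j * t (Fin.succ j) with hL
      have h3 : |L| ≤ 1 := hl (fun j => t j.succ) (fun j => ht _)
      have h4 : t 0 ^ 2 ≤ 1 := (sq_le_one_iff_abs_le_one _).2 (ht 0)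
      have h5 : (1 - c ^ 2) * t 0 ^ 2 + t 0 * (c * L) + -(1 / 4) * L ^ 2
          = t 0 ^ 2 - (c * t 0 - L / 2) ^ 2 := by ring
      rw [h5]
      have h6 : |c * t 0 - L / 2| ≤ 1 := by
        calc |c * t 0 - L / 2| ≤ |c * t 0| + |L / 2| := abs_sub _ _
          _ = c * |t 0| + |L| / 2 := by
            rw [abs_mul, abs_of_pos hc, abs_div, abs_of_pos (by norm_num : (0 : ℝ) < 2)]
          _ ≤ 1 / 2 * 1 + 1 / 2 := by
            have := ht 0
            have h0 := abs_nonneg (t 0)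
            gcongr
          _ = 1 := by norm_num
      have h7 := (sq_le_one_iff_abs_le_one _).2 h6
      rw [abs_le]
      constructor <;> nlinarith [sq_nonneg (t 0), sq_nonneg (c * t 0 - L / 2)]) h1 h2
  have h0 : |blk (1 - c ^ 2) (fun j => c * l j) (fun i j => -(1 / 4) * (l i * l j)) 0 0|
      = 1 - c ^ 2 := by
    simp only [blk, Fin.cases_zero]
    rw [abs_of_nonneg]
    nlinarith
  rw [h0] at key
  have hlin := Lf_lin (A := blk (1 - c ^ 2) (fun j => c * l j) (fun i j => -(1 / 4) * (l i * l j)))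
    (B := blk (m := m) 1 (fun _ => 0) (fun _ _ => 0)) (C := blk 0 l (fun _ _ => 0))
    (D := blk 0 (fun _ => 0) (fun i j => l i * l j)) (b := 1 - c ^ 2) (c := c) (d := -(1 / 4))
    (fun t => by
      simp only [qf_blk, hsq', hsq, qf_zero, hcl, zero_mul, Finset.sum_const_zero]; ring) u
  have k0 := est0 (m := m) h1 h2
  have k2 := est2 h1 h2 (fun i j => l i * l j) (fun t ht => by
    rw [hsq]
    exact ⟨sq_nonneg _, (sq_le_one_iff_abs_le_one _).2 (hl t ht)⟩)
  set a0 := Lf (blk (m := m) 1 (fun _ => 0) (fun _ _ => 0)) u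
  set a1 := Lf (blk 0 l (fun _ _ => 0)) u
  set a2 := Lf (blk 0 (fun _ => 0) (fun i j => l i * l j)) u
  rw [hlin] at key
  have hkey : |(1 - c ^ 2) * a0 + c * a1 + -(1 / 4) * a2| ≤ ε + c ^ 2 := by linarith
  have hε : 0 ≤ ε := (abs_nonneg _).trans k0
  rw [← abs_of_pos hc, ← abs_mul, abs_of_pos hc]
  have e1 : c * a1 = ((1 - c ^ 2) * a0 + c * a1 + -(1 / 4) * a2) - (1 - c ^ 2) * a0 + 1 / 4 * a2 := by
    ring
  rw [e1]
  have hc3 : 0 ≤ 1 - c ^ 2 := by nlinarith
  calc |(1 - c ^ 2) * a0 + c * a1 + -(1 / 4) * a2 - (1 - c ^ 2) * a0 + 1 / 4 * a2|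
      ≤ |(1 - c ^ 2) * a0 + c * a1 + -(1 / 4) * a2 - (1 - c ^ 2) * a0| + |1 / 4 * a2| :=
        abs_add_le _ _
    _ ≤ |(1 - c ^ 2) * a0 + c * a1 + -(1 / 4) * a2| + |(1 - c ^ 2) * a0| + |1 / 4 * a2| := by
        gcongr
        exact abs_sub _ _
    _ ≤ (ε + c ^ 2) + ε + 1 / 4 * (2 * ε) := by
        rw [abs_mul (1 - c ^ 2), abs_mul (1 / 4), abs_of_nonneg hc3,
          abs_of_pos (by norm_num : (0 : ℝ) < 1 / 4)]
        have : (1 - c ^ 2) * |a0| ≤ 1 * ε := by
          apply mul_le_mul _ k0 (abs_nonneg _) zero_le_one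
          nlinarith
        linarith
    _ = 5 / 2 * ε + c ^ 2 := by ring

lemma est3 (Q : Fin m → Fin m → ℝ) (hsym : ∀ i j, Q i j = Q j i)
    (hQ : ∀ t : Fin m → ℝ, (∀ i, |t i| ≤ 1) → |qf Q t| ≤ 1) :
    |Lf (blk 0 (fun _ => 0) Q) u| ≤ 64 * ε := by
  obtain ⟨μ, hμ0, hμ1, hμ⟩ := exists_diagonal_dominating Q hsym hQ
  -- the two psd pieces
  have hD : ∀ (s : ℝ) (t : Fin m → ℝ), qf (fun i j => (1 / 32) * ((if i = j then μ i else 0) + s * Q i j)) t
      = (1 / 32) * ((∑ i, μ i * t i ^ 2) + s * qf Q t) := by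
    intro s t
    unfold qf bf
    rw [Finset.mul_sum, ← Finset.sum_add_distrib, Finset.mul_sum]
    refine Finset.sum_congr rfl fun i _ => ?_
    have : μ i * t i ^ 2 = ∑ j, (if i = j then μ i else 0) * (t i * t j) := by
      rw [Finset.sum_eq_single i]
      · rw [if_pos rfl]; ring
      · intro j _ hj; simp [Ne.symm hj]
      · simp
    rw [this, Finset.mul_sum, ← Finset.sum_add_distrib, Finset.mul_sum]
    refine Finset.sum_congr rfl fun j _ => ?_
    ring
  have hb : ∀ t : Fin m → ℝ, (∀ i, |t i| ≤ 1) → ∑ i, μ i * t i ^ 2 ≤ 16 := by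
    intro t ht
    refine le_trans (Finset.sum_le_sum fun i _ => ?_) hμ1
    have := (sq_le_one_iff_abs_le_one _).2 (ht i)
    nlinarith [hμ0 i]
  have hR : ∀ s : ℝ, |s| = 1 → ∀ t : Fin m → ℝ, (∀ i, |t i| ≤ 1) →
      0 ≤ qf (fun i j => (1 / 32) * ((if i = j then μ i else 0) + s * Q i j)) t ∧
      qf (fun i j => (1 / 32) * ((if i = j then μ i else 0) + s * Q i j)) t ≤ 1 := by
    intro s hs t ht
    rw [hD]
    have h3 := hμ t
    have h4 := hb t ht
    have h5 : |s * qf Q t| ≤ ∑ i, μ i * t i ^ 2 := by rw [abs_mul, hs, one_mul]; exact h3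
    have h6 := abs_le.1 h5
    constructor <;> linarith [h6.1, h6.2]
  have k1 := est2 h1 h2 _ (hR 1 (by simp))
  have k2 := est2 h1 h2 _ (hR (-1) (by simp))
  have hlin := Lf_lin (A := blk 0 (fun _ => 0) Q)
    (B := blk 0 (fun _ => 0) (fun i j => (1 / 32) * ((if i = j then μ i else 0) + 1 * Q i j)))
    (C := blk 0 (fun _ => 0) (fun i j => (1 / 32) * ((if i = j then μ i else 0) + (-1) * Q i j)))
    (D := fun _ _ => 0) (b := 16) (c := -16) (d := 0) (fun t => by
      simp only [qf_blk, hD, qf_zero, zero_mul, Finset.sum_const_zero]; ring) u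
  rw [hlin]
  have l1 := abs_le.1 k1
  have l2 := abs_le.1 k2
  rw [abs_le]
  constructor <;> linarith [l1.1, l1.2, l2.1, l2.2]

/-- all functionals with a finite matrix are small on `u` -/
lemma est (A : Fin (m + 1) → Fin (m + 1) → ℝ) (hsym : ∀ i j, A i j = A j i)
    (hA : ∀ t : Fin (m + 1) → ℝ, (∀ i, |t i| ≤ 1) → |qf A t| ≤ 1)
    {c : ℝ} (hc : 0 < c) (hc2 : c ≤ 1 / 2) :
    c * |Lf A u| ≤ c * (65 * ε) + (5 / 2 * ε + c ^ 2) := by
  have hblk : A = blk (A 0 0) (fun j => 2 * A 0 j.succ) (fun i j => A i.succ j.succ) := by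
    funext i j
    refine Fin.cases ?_ (fun i' => ?_) i <;> refine Fin.cases ?_ (fun j' => ?_) j
    · simp [blk]
    · simp [blk]
    · simp [blk, hsym i'.succ 0]
    · simp [blk]
  have hexp : ∀ t, qf A t = A 0 0 * t 0 ^ 2 + t 0 * ∑ j : Fin m, 2 * A 0 j.succ * t j.succ
      + qf (fun i j => A i.succ j.succ) (fun i => t i.succ) := by
    intro t
    conv_lhs => rw [hblk]
    rw [qf_blk]
  -- restrictions
  have hcons : ∀ (s : ℝ) (t : Fin m → ℝ), |s| ≤ 1 → (∀ i, |t i| ≤ 1) →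
      |A 0 0 * s ^ 2 + s * ∑ j : Fin m, 2 * A 0 j.succ * t j
      + qf (fun i j => A i.succ j.succ) t| ≤ 1 := by
    intro s t hs ht
    have := hA (Fin.cons s t) (fun i => by
      refine Fin.cases ?_ (fun i' => ?_) i
      · simpa using hs
      · simpa using ht i')
    rw [hexp] at this
    simpa using this
  have hA00 : |A 0 0| ≤ 1 := by
    have := hcons 1 (fun _ => 0) (by simp) (by simp)
    have h0 : qf (fun i j : Fin m => A i.succ j.succ) (fun _ => (0:ℝ)) = 0 := by simp [qf, bf]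
    rw [h0] at this
    simpa using this
  have hQ : ∀ t : Fin m → ℝ, (∀ i, |t i| ≤ 1) →
      |qf (fun i j => A i.succ j.succ) t| ≤ 1 := by
    intro t ht
    have := hcons 0 t (by simp) ht
    simpa using this
  have hl : ∀ t : Fin m → ℝ, (∀ i, |t i| ≤ 1) → |∑ j : Fin m, 2 * A 0 j.succ * t j| ≤ 1 := by
    intro t ht
    have k1 := abs_le.1 (hcons 1 t (by simp) ht)
    have k2 := abs_le.1 (hcons (-1) t (by simp) ht)
    rw [abs_le]
    constructor <;> nlinarith [k1.1, k1.2, k2.1, k2.2]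
  have hlin := Lf_lin (A := A) (B := blk (m := m) 1 (fun _ => 0) (fun _ _ => 0))
    (C := blk 0 (fun j => 2 * A 0 j.succ) (fun _ _ => 0))
    (D := blk 0 (fun _ => 0) (fun i j => A i.succ j.succ)) (b := A 0 0) (c := 1) (d := 1)
    (fun t => by
      rw [hexp]
      simp only [qf_blk, qf_zero, zero_mul, Finset.sum_const_zero]; ring) u
  have k0 := est0 (m := m) h1 h2
  have k1 := est1 h1 h2 _ hl hc hc2
  have k3 := est3 h1 h2 (fun i j => A i.succ j.succ) (fun i j => hsym _ _) hQ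
  rw [hlin]
  have hb : |A 0 0 * Lf (blk (m := m) 1 (fun _ => 0) (fun _ _ => 0)) u
      + 1 * Lf (blk 0 (fun j => 2 * A 0 j.succ) (fun _ _ => 0)) u
      + 1 * Lf (blk 0 (fun _ => 0) (fun i j => A i.succ j.succ)) u|
      ≤ ε + |Lf (blk 0 (fun j => 2 * A 0 j.succ) (fun _ _ => 0)) u| + 64 * ε := by
    refine (abs_add_three _ _ _).trans ?_
    rw [one_mul, one_mul, abs_mul]
    have : |A 0 0| * |Lf (blk (m := m) 1 (fun _ => 0) (fun _ _ => 0)) u| ≤ 1 * ε :=
      mul_le_mul hA00 k0 (abs_nonneg _) zero_le_one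
    linarith
  calc c * _ ≤ c * (ε + |Lf (blk 0 (fun j => 2 * A 0 j.succ) (fun _ _ => 0)) u| + 64 * ε) :=
        mul_le_mul_of_nonneg_left hb hc.le
    _ ≤ _ := by nlinarith

end estimate

/-! ### truncation -/

lemma mk0_eq_sum {m : ℕ} (t : Fin m → ℝ) : mk0 m t = ∑ i, t i • e0 i := by
  have hcoe : ∀ (s : Finset (Fin m)) (j : ℕ), (∑ i ∈ s, t i • e0 (i : ℕ)) j
      = ∑ i ∈ s, t i * e0 (i : ℕ) j := by
    intro s j
    induction s using Finset.induction_on with
    | empty => simp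
    | insert a s ha ih =>
      rw [Finset.sum_insert ha, Finset.sum_insert ha, ZeroAtInftyContinuousMap.add_apply, ih]
      rfl
  ext j
  rw [hcoe, mk0_apply]
  by_cases h : j < m
  · rw [dif_pos h, Finset.sum_eq_single ⟨j, h⟩]
    · simp [e0_apply]
    · intro i _ hi
      have : ¬ (j = (i : ℕ)) := fun h' => hi (Fin.ext h'.symm)
      simp [e0_apply, this]
    · simp
  · rw [dif_neg h, Finset.sum_eq_zero]
    intro i _
    have : ¬ (j = (i : ℕ)) := fun h' => h (h' ▸ i.2)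
    simp [e0_apply, this]

/-- the matrix of a functional -/
noncomputable def mat (g : SymProj 2 c0 →ₗ[ℝ] ℝ) (m : ℕ) : Fin m → Fin m → ℝ :=
  fun i j => g (sy (e0 i) (e0 j))

lemma qf_mat (g : SymProj 2 c0 →ₗ[ℝ] ℝ) {m : ℕ} (t : Fin m → ℝ) :
    qf (mat g m) t = g (el (mk0 m t)) := by
  rw [mk0_eq_sum, ← sy_self, ← syB_apply, map_sum]
  simp only [LinearMap.coe_sum, Finset.sum_apply, map_sum, map_smul, LinearMap.smul_apply,
    smul_eq_mul]
  unfold qf bf mat
  refine Finset.sum_congr rfl fun i _ => ?_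
  rw [Finset.mul_sum]
  refine Finset.sum_congr rfl fun j _ => ?_
  rw [syB_apply, sy_comm]
  ring

lemma tendsto_trunc (x : c0) : Tendsto (fun m => mk0 m (fun i => x i)) atTop (𝓝 x) := by
  rw [tendsto_iff_norm_sub_tendsto_zero, Metric.tendsto_atTop]
  intro ε hε
  have := (tendsto_coord x).abs
  rw [abs_zero] at this
  obtain ⟨M, hM⟩ := eventually_atTop.1 (this.eventually (eventually_le_nhds (half_pos hε)))
  refine ⟨M, fun m hm => ?_⟩
  rw [Real.dist_eq, sub_zero, abs_norm]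
  refine lt_of_le_of_lt (norm_le_of _ (half_pos hε).le fun j => ?_) (half_lt_self hε)
  rw [ZeroAtInftyContinuousMap.sub_apply, mk0_apply]
  by_cases h : j < m
  · simp only [h, dite_true, sub_self, abs_zero]
    linarith
  · simp only [h, dite_false, zero_sub, abs_neg]
    exact hM j (by omega)

lemma tendsto_el {x : ℕ → c0} {y : c0} (h : Tendsto x atTop (𝓝 y)) :
    Tendsto (fun m => el (x m)) atTop (𝓝 (el y)) := by
  rw [tendsto_iff_norm_sub_tendsto_zero]
  have hz : Tendsto (fun m => 4 * (‖x m + y‖ * ‖x m - y‖)) atTop (𝓝 (4 * (‖y + y‖ * ‖y - y‖))) :=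
    (((h.add_const y).norm).mul ((h.sub_const y).norm)).const_mul 4
  rw [sub_self, norm_zero, mul_zero, mul_zero] at hz
  refine squeeze_zero (fun m => norm_nonneg _) (fun m => ?_) hz
  rw [el_sub]
  exact norm_sy_le' _ _

lemma tendsto_Lf_mat (g : SymProj 2 c0 →L[ℝ] ℝ) (u : SymProj 2 c0) :
    Tendsto (fun m => Lf (mat (g : SymProj 2 c0 →ₗ[ℝ] ℝ) m) u) atTop (𝓝 (g u)) := by
  obtain ⟨k, c, x, rfl⟩ := exists_rep u
  simp only [map_sum, map_smul]
  refine tendsto_finsetSum _ fun i _ => Tendsto.const_smul ?_ _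
  have : ∀ m, Lf (mat (g : SymProj 2 c0 →ₗ[ℝ] ℝ) m) (el (x i)) = g (el (mk0 m (fun j => x i j))) := by
    intro m
    rw [Lf_el, qf_mat]
    rfl
  simp only [this]
  exact (g.continuous.tendsto _).comp (tendsto_el (tendsto_trunc (x i)))

/-- The main estimate: `u` has small norm. -/
lemma norm_lt_half {u : SymProj 2 c0} (h1 : ‖el (e0 0) + u‖ ≤ 1 + 1 / 1600)
    (h2 : ‖el (e0 0) - u‖ ≤ 1 + 1 / 1600) : ‖u‖ < 1 / 2 := by
  by_contra hcon
  push Not at hcon
  obtain ⟨g, hg1, hg2⟩ := exists_dual_vector'' ℝ u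
  have hlim := tendsto_Lf_mat g u
  have hgu : (1 / 4 : ℝ) < g u := by
    rw [hg2]
    simp only [RCLike.ofReal_real_eq_id, id_eq]
    linarith
  have hev := (hlim.eventually (eventually_gt_nhds hgu)).and (eventually_ge_atTop 1)
  obtain ⟨m, hm1, hm2⟩ := hev.exists
  obtain ⟨m, rfl⟩ : ∃ m', m = m' + 1 := ⟨m - 1, by omega⟩
  have hbound : ∀ t : Fin (m + 1) → ℝ, (∀ i, |t i| ≤ 1) →
      |qf (mat (g : SymProj 2 c0 →ₗ[ℝ] ℝ) (m + 1)) t| ≤ 1 := by
    intro t ht
    rw [qf_mat]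
    have k1 : ‖mk0 (m + 1) t‖ ≤ 1 := norm_mk0_le _ _ zero_le_one ht
    have k2 : ‖el (mk0 (m + 1) t)‖ ≤ 1 := by
      refine (norm_el_le _).trans ?_
      have := norm_nonneg (mk0 (m + 1) t)
      nlinarith
    calc |g (el (mk0 (m + 1) t))| ≤ ‖g‖ * ‖el (mk0 (m + 1) t)‖ := g.le_opNorm _
      _ ≤ 1 * 1 := by gcongr
      _ = 1 := one_mul 1
  have hfin := est h1 h2 (mat (g : SymProj 2 c0 →ₗ[ℝ] ℝ) (m + 1))
    (fun i j => by unfold mat; rw [sy_comm]) hbound (c := 1 / 40) (by norm_num) (by norm_num)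
  have habs := le_abs_self (Lf (mat (g : SymProj 2 c0 →ₗ[ℝ] ℝ) (m + 1)) u)
  norm_num at hfin
  linarith

/-- **The symmetric projective tensor square of `c₀` is not almost square.** -/
theorem not_isASQ_symProj_c0 : ¬ IsASQ (SymProjCompletion 2 c0) := by
  intro hASQ
  let v : SymProjCompletion 2 c0 := (el (e0 0) : SymProj 2 c0)
  have hv : ‖v‖ = 1 := by
    show ‖((el (e0 0) : SymProj 2 c0) : UniformSpace.Completion (SymProj 2 c0))‖ = 1
    rw [UniformSpace.Completion.norm_coe]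
    refine le_antisymm ?_ ?_
    · have := norm_el_le (e0 0)
      rwa [norm_e0, one_pow] at this
    · have := Lf_abs_le (blk (m := 0) 1 (fun _ => 0) (fun _ _ => 0)) (fun t ht => by
        rw [qf_blk, qf_zero]
        simp only [one_mul, zero_mul, Finset.sum_const_zero, mul_zero, add_zero]
        rw [abs_of_nonneg (sq_nonneg _)]
        exact (sq_le_one_iff_abs_le_one _).2 (ht 0)) (el (e0 0))
      rw [Lf_el, qf_blk, qf_zero] at this
      simpa [e0_apply] using this
  obtain ⟨z, hz1, hz⟩ := hASQ 1 (fun _ => v) (fun _ => hv) (1 / 3200) (by norm_num)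
  obtain ⟨hz2, hz3⟩ := hz 0
  -- approximate `z` by an element of the algebraic tensor product
  obtain ⟨u, hu⟩ : ∃ u : SymProj 2 c0, ‖z - (u : UniformSpace.Completion (SymProj 2 c0))‖ < 1 / 3200 := by
    have hd := UniformSpace.Completion.denseRange_coe (α := SymProj 2 c0)
    obtain ⟨u, hu⟩ := hd.exists_dist_lt z (by norm_num : (0 : ℝ) < 1 / 3200)
    exact ⟨u, by rwa [dist_eq_norm] at hu⟩
  have n1 : ‖el (e0 0) + u‖ ≤ 1 + 1 / 1600 := by
    rw [← UniformSpace.Completion.norm_coe, UniformSpace.Completion.coe_add]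
    have e1 : ((el (e0 0) : SymProj 2 c0) : UniformSpace.Completion (SymProj 2 c0)) + u
        = (v + z) - (z - u) := by
      show _ = (((el (e0 0) : SymProj 2 c0) : UniformSpace.Completion (SymProj 2 c0)) + z) - (z - u)
      abel
    rw [e1]
    refine (norm_sub_le _ _).trans ?_
    linarith
  have n2 : ‖el (e0 0) - u‖ ≤ 1 + 1 / 1600 := by
    rw [← UniformSpace.Completion.norm_coe, UniformSpace.Completion.coe_sub]
    have e1 : ((el (e0 0) : SymProj 2 c0) : UniformSpace.Completion (SymProj 2 c0)) - u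
        = (v - z) + (z - u) := by
      show _ = (((el (e0 0) : SymProj 2 c0) : UniformSpace.Completion (SymProj 2 c0)) - z) + (z - u)
      abel
    rw [e1]
    refine (norm_add_le _ _).trans ?_
    linarith
  have hlt := norm_lt_half n1 n2
  have : ‖z‖ ≤ ‖u‖ + 1 / 3200 := by
    calc ‖z‖ = ‖(z - u) + (u : UniformSpace.Completion (SymProj 2 c0))‖ := by rw [sub_add_cancel]
      _ ≤ ‖z - u‖ + ‖(u : UniformSpace.Completion (SymProj 2 c0))‖ := norm_add_le _ _
      _ ≤ ‖u‖ + 1 / 3200 := by rw [UniformSpace.Completion.norm_coe]; linarith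
  linarith

end Pool.Agent.SymASQ
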